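import Pool.Agent.H27.CAL.Stmts2

/-!
# Project CAL, module AVG1: basic averaging estimate at coordinates of weight < j
-/

open scoped BigOperators ENNReal Topology
open Filter

namespace CAL

variable {𝕜 : Type*} [RCLike 𝕜] {A : Type*} [PartialOrder A] {Y : Type*} [NormedAddCommGroup Y]
  [NormedSpace 𝕜 Y] {τ : TreeLev A}

theorem avg1_max (D : Dat 𝕜 Y τ) (b : Fn 𝕜 A Y) (hb : nrm b ≤ 1) (u : D.X) :
    D.evX b u = 0 ∨ (∃ β ∈ b.1.support, ‖D.evX b u‖ ≤ ‖D.co β u‖) ∨
      (∃ a ∈ b.2.support, ‖D.evX b u‖ ≤ ‖D.nd a u‖) := by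
  classical
  by_contra hcon
  push Not at hcon
  obtain ⟨h0, h1, h2⟩ := hcon
  have hpos : 0 < ‖D.evX b u‖ := norm_pos_iff.2 h0
  obtain ⟨M, hM0, hM, hM1, hM2⟩ : ∃ M : ℝ, 0 ≤ M ∧ M < ‖D.evX b u‖ ∧
      (∀ β ∈ b.1.support, ‖D.co β u‖ ≤ M) ∧ (∀ a ∈ b.2.support, ‖D.nd a u‖ ≤ M) := by
    let S : Finset ℝ := insert 0 ((b.1.support.image fun β => ‖D.co β u‖) ∪
      (b.2.support.image fun a => ‖D.nd a u‖))
    have hS : S.Nonempty := ⟨0, Finset.mem_insert_self _ _⟩
    refine ⟨S.max' hS, S.le_max' 0 (Finset.mem_insert_self _ _), ?_, ?_, ?_⟩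
    · rw [Finset.max'_lt_iff]
      intro y hy
      simp only [S, Finset.mem_insert, Finset.mem_union, Finset.mem_image] at hy
      rcases hy with rfl | ⟨β, hβ, rfl⟩ | ⟨a, ha, rfl⟩
      · exact hpos
      · exact h1 β hβ
      · exact h2 a ha
    · intro β hβ
      exact S.le_max' _ (Finset.mem_insert_of_mem (Finset.mem_union_left _
        (Finset.mem_image_of_mem _ hβ)))
    · intro a ha
      exact S.le_max' _ (Finset.mem_insert_of_mem (Finset.mem_union_right _
        (Finset.mem_image_of_mem _ ha)))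
  have := D.norm_evX_le' b u hM1 hM2
  nlinarith

/-- nodes: the set of positions where the node is not zero is a chain set -/
theorem avg1_node (D : Dat 𝕜 Y τ) (h1 : RANStmt D) {Ch : Finset ℕ → Prop} (F : FamSys Ch)
    (w : Wts) (R : Rich D F w) (j : ℕ) (C μ : ℝ) (I : Finset ℕ) (x : ℕ → D.X) (s p : ℕ → ℕ)
    (l : ℕ → ℝ) (S : D.Sys j C μ I x s p l) (a : A) (J : Finset ℕ) (hJ : J ⊆ I) :
    ∃ g, WW Ch F.Fam j g ∧ (∀ r, g r ≠ 0 → ∃ k ∈ J, r = p k) ∧
      ‖D.nd a (∑ k ∈ J, (l k : 𝕜) • x k)‖ ≤ C * ∑ k ∈ J, l k * g (p k) := by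
  classical
  obtain ⟨-, -, -, -, -, -, -, -, r9⟩ := h1
  let G : Finset ℕ := (J.filter fun k => D.nd a (x k) ≠ 0).image p
  have hG : ∀ t ∈ G, ∃ k ∈ J, D.nd a (x k) ≠ 0 ∧ t = p k := by
    intro t ht
    obtain ⟨k, hk, rfl⟩ := Finset.mem_image.1 ht
    rw [Finset.mem_filter] at hk
    exact ⟨k, hk.1, hk.2, rfl⟩
  have hch : τ.Chain G := by
    right
    refine ⟨a, fun t ht => ?_⟩
    obtain ⟨k, hk, hne, rfl⟩ := hG t ht
    obtain ⟨b, hb, hb1, hb2⟩ := r9 _ _ _ _ (S.ran k (hJ hk)) hne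
    refine ⟨b, hb, hb2, fun t' ht' hlt => ?_⟩
    obtain ⟨k', hk', -, rfl⟩ := hG t' ht'
    rcases lt_trichotomy k' k with h | h | h
    · exact (S.ps k' (hJ hk') k (hJ hk) h).trans_lt hb1
    · rw [h] at hlt; exact absurd hlt (lt_irrefl _)
    · have g1 := S.ps k (hJ hk) k' (hJ hk') h
      have g2 := S.sp k' (hJ hk')
      omega
  refine ⟨fun s => if s ∈ G then 1 else 0, WW.chain G (R.chain_le G hch), ?_, ?_⟩
  · intro r hr
    by_cases h : r ∈ G
    · obtain ⟨k, hk, -, hk'⟩ := hG r h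
      exact ⟨k, hk, hk'⟩
    · exact absurd (if_neg h) hr
  · rw [map_sum, Finset.mul_sum]
    refine (norm_sum_le _ _).trans (Finset.sum_le_sum fun k hk => ?_)
    rw [map_smul, norm_smul, RCLike.norm_ofReal, abs_of_nonneg (S.l0 k (hJ hk))]
    by_cases h : D.nd a (x k) = 0
    · rw [h, norm_zero, mul_zero]
      refine mul_nonneg S.C0 (mul_nonneg (S.l0 k (hJ hk)) ?_)
      show (0 : ℝ) ≤ if p k ∈ G then 1 else 0
      split_ifs <;> norm_num
    · have hpk : p k ∈ G := Finset.mem_image_of_mem _ (Finset.mem_filter.2 ⟨hk, h⟩)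
      simp only [if_pos hpk]
      have g1 := (D.norm_nd_le a (x k)).trans (S.nm k (hJ hk))
      have g2 := S.l0 k (hJ hk)
      nlinarith

theorem cal_avg1 (D : Dat 𝕜 Y τ) (h1 : COMBStmt D) (h2 : RANStmt D) : AVG1Stmt D := by
  intro Ch F w R j C μ I x s p l S
  have hC := S.C0
  have hmu := S.mu0
  have key : ∀ n, ∀ γ, D.lev γ ≤ n → D.wt γ < j → ∀ J ⊆ I,
      ∃ g, WW Ch F.Fam j g ∧ (∀ r, g r ≠ 0 → ∃ k ∈ J, r = p k) ∧
        ‖∑ k ∈ J, (l k : 𝕜) * D.co γ (x k)‖ ≤
          C * ∑ k ∈ J, l k * g (p k) + C * μ * (mm (D.wt γ))⁻¹ * ∑ k ∈ J, l k := by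
    intro n
    induction n with
    | zero => intro γ hγ; exact absurd (D.lev_pos γ) (by omega)
    | succ n ih =>
      intro γ hγ hw J hJ
      refine h1 F w R j C μ I x s p l S γ hw (C * μ) (mul_nonneg hC hmu) J hJ ?_
      intro ζ hζ J' hJ'
      have hJ'I : J' ⊆ I := hJ'.trans hJ
      have hl : 0 ≤ ∑ k ∈ J', l k := Finset.sum_nonneg (fun k hk => S.l0 k (hJ'I hk))
      have hlev : D.lev ζ ≤ D.lev γ := by
        clear ih hγ hw
        induction hζ with
        | refl => exact le_rfl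
        | step h _ ih' =>
          have := D.pred_lev _ _ h
          omega
      rcases avg1_max D (D.b ζ) (D.b_norm ζ) (∑ k ∈ J', (l k : 𝕜) • x k) with h | ⟨β, hβ, h⟩ |
        ⟨a, ha, h⟩
      · refine ⟨_, WW.zero, fun r hr => absurd rfl hr, ?_⟩
        rw [h, norm_zero]
        simp only [mul_zero, Finset.sum_const_zero, zero_add]
        positivity
      · have hβl := D.b_sc ζ β hβ
        have hco : D.co β (∑ k ∈ J', (l k : 𝕜) • x k) = ∑ k ∈ J', (l k : 𝕜) * D.co β (x k) := by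
          rw [map_sum]
          exact Finset.sum_congr rfl (fun k _ => by rw [map_smul, smul_eq_mul])
        rw [hco] at h
        by_cases hwβ : D.wt β < j
        · obtain ⟨g, hg, hg1, hg2⟩ := ih β (by omega) hwβ J' hJ'I
          refine ⟨g, hg, hg1, (h.trans hg2).trans ?_⟩
          have h4 : (mm (D.wt β))⁻¹ ≤ 1 := (mm_inv_le _).trans (by norm_num)
          have h5 : C * μ * (mm (D.wt β))⁻¹ * ∑ k ∈ J', l k ≤ C * μ * ∑ k ∈ J', l k := by
            apply mul_le_mul_of_nonneg_right _ hl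
            exact mul_le_of_le_one_right (mul_nonneg hC hmu) h4
          linarith
        · rcases J'.eq_empty_or_nonempty with rfl | hne
          · refine ⟨_, WW.zero, fun r hr => absurd rfl hr, ?_⟩
            refine h.trans (le_of_eq ?_)
            rw [Finset.sum_empty, norm_zero, Finset.sum_empty, Finset.sum_empty]
            ring
          · obtain ⟨k0, hk0, hk1⟩ := S.big β (not_lt.1 hwβ) J' hJ'I hne
            refine ⟨_, WW.single (p k0), ?_, ?_⟩
            · intro r hr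
              by_cases hrk : r = p k0
              · exact ⟨k0, hk0, hrk⟩
              · exact absurd (if_neg hrk) hr
            · refine h.trans ((norm_sum_le _ _).trans ?_)
              have h6 : ∑ k ∈ J', ‖(l k : 𝕜) * D.co β (x k)‖ = ∑ k ∈ J', l k * ‖D.co β (x k)‖ :=
                Finset.sum_congr rfl (fun k hk => by
                  rw [norm_mul, RCLike.norm_ofReal, abs_of_nonneg (S.l0 k (hJ'I hk))])
              rw [h6]
              refine hk1.trans ?_
              have h7 : l k0 ≤ ∑ k ∈ J', l k * (if p k = p k0 then (1 : ℝ) else 0) := by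
                have := Finset.single_le_sum (f := fun k => l k * (if p k = p k0 then (1 : ℝ) else 0))
                  (fun k hk => mul_nonneg (S.l0 k (hJ'I hk)) (by split_ifs <;> norm_num)) hk0
                simpa using this
              have h8 := mul_le_mul_of_nonneg_left h7 hC
              linarith
      · obtain ⟨g, hg, hg1, hg2⟩ := avg1_node D h2 F w R j C μ I x s p l S a J' hJ'I
        refine ⟨g, hg, hg1, (h.trans hg2).trans ?_⟩
        have : 0 ≤ C * μ * ∑ k ∈ J', l k := mul_nonneg (mul_nonneg hC hmu) hl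
        linarith
  intro γ hw J hJ
  exact key _ γ le_rfl hw J hJ

end CAL
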