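import Pool.Agent.H27.CAL.Stmts2

/-!
# Project CAL, module MIX: sums of two interlaced rapidly increasing sequences
-/

open scoped BigOperators ENNReal Topology
open Filter

namespace CAL

variable {𝕜 : Type*} [RCLike 𝕜] {A : Type*} [PartialOrder A] {Y : Type*} [NormedAddCommGroup Y]
  [NormedSpace 𝕜 Y] {τ : TreeLev A}

theorem mix_smono {D : Dat 𝕜 Y τ} {C : ℝ} {x : ℕ → D.X} {s t j : ℕ → ℕ}
    (h : D.IsRIS C x s t j) : StrictMono s :=
  strictMono_nat_of_lt_succ (fun k => (h.st k).trans_le (h.ts k))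

theorem cal_mix (D : Dat 𝕜 Y τ) (h1 : RANStmt D) : MIXStmt D := by
  obtain ⟨-, -, r3, r4, -, r6, -⟩ := h1
  intro x y hx hy
  obtain ⟨Cx, sx, tx, jx, hx⟩ := hx
  obtain ⟨Cy, sy, ty, jy, hy⟩ := hy
  let fb : ℕ → ℕ := fun a => tx a + jx a + a
  let fa : ℕ → ℕ := fun b => ty b + b + 1
  let a : ℕ → ℕ := fun n => Nat.rec 0 (fun _ a => fa (fb a)) n
  have ha : ∀ k, a (k + 1) = fa (fb (a k)) := fun k => rfl
  have hsx : ∀ k, k ≤ sx k := fun k => (mix_smono hx).le_apply
  have hsy : ∀ k, k ≤ sy k := fun k => (mix_smono hy).le_apply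
  have hjx : ∀ k, k ≤ jx k := fun k => hx.jm.le_apply
  have hjy : ∀ k, k ≤ jy k := fun k => hy.jm.le_apply
  have ha1 : ∀ k, fb (a k) < a (k + 1) := fun k => by
    rw [ha]; show _ < ty _ + _ + 1; omega
  have hfb : ∀ k, a k ≤ fb (a k) := fun k => by show _ ≤ tx _ + jx _ + _; omega
  have ham : StrictMono a := strictMono_nat_of_lt_succ (fun k => (hfb k).trans_lt (ha1 k))
  have hbm : StrictMono (fun k => fb (a k)) :=
    strictMono_nat_of_lt_succ (fun k => (ha1 k).trans_le (hfb (k + 1)))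
  have e1 : ∀ k, tx (a k) ≤ sy (fb (a k)) := fun k => by
    have := hsy (fb (a k))
    have h2 : fb (a k) = tx (a k) + jx (a k) + a k := rfl
    omega
  have e2 : ∀ k, jx (a k) ≤ jy (fb (a k)) := fun k => by
    have := hjy (fb (a k))
    have h2 : fb (a k) = tx (a k) + jx (a k) + a k := rfl
    omega
  have e3 : ∀ k, ty (fb (a k)) ≤ sx (a (k + 1)) := fun k => by
    have := hsx (a (k + 1))
    have h2 : a (k + 1) = ty (fb (a k)) + fb (a k) + 1 := rfl
    omega
  have e4 : ∀ k, ty (fb (a k)) < jx (a (k + 1)) := fun k => by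
    have := hjx (a (k + 1))
    have h2 : a (k + 1) = ty (fb (a k)) + fb (a k) + 1 := rfl
    omega
  have hCx : 0 ≤ Cx := (norm_nonneg _).trans (hx.nm 0)
  have hCy : 0 ≤ Cy := (norm_nonneg _).trans (hy.nm 0)
  refine ⟨a, fun k => fb (a k), fun k => tx (a k), ham, hbm,
    ⟨Cx + Cy, fun k => sx (a k), fun k => ty (fb (a k)), fun k => jx (a k), ?_⟩, fun k => ⟨?_, ?_⟩⟩
  · refine ⟨fun k => ?_, fun k => ?_, e3, fun k => ?_, e4, hx.jm.comp ham, fun k γ hγ => ?_⟩
    · have g1 := hx.st (a k)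
      have g2 := hy.st (fb (a k))
      have g3 := e1 k
      exact r6 _ _ _ _ (r3 _ _ _ _ _ le_rfl (by omega) (hx.ran (a k)))
        (r3 _ _ _ _ _ (by omega) le_rfl (hy.ran (fb (a k))))
    · have g1 := hx.st (a k)
      have g2 := hy.st (fb (a k))
      have g3 := e1 k
      show sx (a k) < ty (fb (a k))
      omega
    · exact (norm_add_le _ _).trans (add_le_add (hx.nm _) (hy.nm _))
    · rw [map_add, add_mul]
      exact (norm_add_le _ _).trans (add_le_add (hx.sm _ _ hγ) (hy.sm _ _ (hγ.trans_le (e2 k))))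
  · exact (hx.ran (a k)).2
  · exact r4 _ _ _ _ (hy.ran (fb (a k))) (e1 k)

end CAL
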